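import Pool.Agent.H77.BD.Targets

set_option autoImplicit false

namespace Pool.Agent.H82.BCT

open Set Matrix Pool.Agent.H77.BC Pool.Agent.H77.BD

theorem ng_ng {l : ℕ} {C : Matrix (Fin l) (Fin l) ℤ} (δ : Root C) : ng (ng δ) = δ :=
  Subtype.ext (neg_neg _)

theorem qf_eq {l : ℕ} {C : Matrix (Fin l) (Fin l) ℤ} {F : Type} [Field F] (γ : Root C)
    (v : Sp C F) : qf γ v = v.1 (ng γ) • eb F γ := by
  refine Prod.ext ?_ ?_
  · funext δ
    simp only [qf, eb, Prod.smul_fst, Pi.smul_apply, smul_eq_mul, co_neg]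
    split_ifs <;> simp
  · funext i
    simp [qf, eb]

theorem eb_self {l : ℕ} {C : Matrix (Fin l) (Fin l) ℤ} {F : Type} [Field F] (γ : Root C) :
    (eb F γ).1 γ = 1 := if_pos rfl

theorem pf_CEA (hBRB : T_BRB) (hEXT : T_EXT) (hPRN : T_PRN) : T_CEA := by
  classical
  intro l C hC F _ _ g α hLA hCm
  obtain ⟨hB1, -, -, hB4, -⟩ := hBRB hC (F := F)
  obtain ⟨hadd, hsm, hbr⟩ := hLA
  have hE : ∀ γ : Root C, 0 ≤ ip C γ.1 α.1 → ∀ v : Sp C F,
      g (nf γ v) = nf γ (g v) ∧ g (qf γ v) = qf γ (g v) := fun γ hγ v =>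
    hEXT hC g γ ⟨hadd, hsm, hbr⟩ (hCm γ hγ) v
  have h1 : ∀ γ : Root C, 0 ≤ ip C γ.1 α.1 → g (eb F γ) = eb F γ := by
    intro γ hγ
    have e1 : eb F γ = qf γ (eb F (ng γ)) := by
      rw [qf_eq, eb_self, one_smul]
    have e2 : g (eb F γ) = (g (eb F (ng γ))).1 (ng γ) • eb F γ := by
      conv_lhs => rw [e1]
      rw [(hE γ hγ _).2, qf_eq]
    set lam := (g (eb F (ng γ))).1 (ng γ) with hlam
    obtain ⟨h, hh⟩ := (hPRN hC (F := F)).1 γ
    let w : Sp C F := g.symm (hb h)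
    have hw : g w = hb h := g.apply_symm_apply _
    have e3 : nf γ (hb h : Sp C F) = lam • nf γ (hb h) := by
      have e4 := (hE γ hγ w).1
      rw [← hB1 γ w, hbr, e2, hB4, hB1, hw] at e4
      exact e4.symm
    have e5 : (nf γ (hb h : Sp C F)).1 γ = -1 := by
      simp only [nf, hb, if_true]
      rw [hh]
      have : co (0 : Root C → F) (γ.1 - γ.1) = 0 := by
        unfold co
        split_ifs <;> rfl
      rw [this]
      ring
    have e6 := congrFun (congrArg Prod.fst e3) γ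
    rw [Prod.smul_fst, Pi.smul_apply, smul_eq_mul, e5] at e6
    have e7 : lam = 1 := by linear_combination e6
    rw [e2, e7, one_smul]
  refine ⟨h1, fun δ hδ v => ?_⟩
  have hγ : 0 ≤ ip C (ng δ).1 α.1 := by
    rw [ng_val, ip_neg_left]
    omega
  have e1 := (hE (ng δ) hγ v).2
  rw [qf_eq, qf_eq, hsm, h1 _ hγ, ng_ng] at e1
  have e2 := congrFun (congrArg Prod.fst e1) (ng δ)
  rw [Prod.smul_fst, Prod.smul_fst, Pi.smul_apply, Pi.smul_apply, eb_self, smul_eq_mul,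
    smul_eq_mul, mul_one, mul_one] at e2
  exact e2.symm

end Pool.Agent.H82.BCT
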