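import Pool.Agent.H77.BD.Targets

set_option autoImplicit false

namespace Pool.Agent.H82.BCT

open Set Matrix Pool.Agent.H77.BC Pool.Agent.H77.BD

theorem relIndex_ne {G G' : Type*} [Group G] [Group G'] (A S : Subgroup G) (φ : G →* G')
    (hfin : (φ '' (A : Set G)).Finite) (hS : ∀ w ∈ A, φ w = 1 → w ∈ S) : S.relIndex A ≠ 0 := by
  have hK : (φ.comp A.subtype).ker.index ≠ 0 := by
    rw [Subgroup.index_ker]
    have hr : ((φ.comp A.subtype).range : Set G').Finite := by
      refine hfin.subset ?_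
      rintro _ ⟨w, rfl⟩
      exact ⟨w.1, w.2, rfl⟩
    have : Finite (φ.comp A.subtype).range := hr.to_subtype
    exact Nat.card_pos.ne'
  have hle : (φ.comp A.subtype).ker ≤ S.subgroupOf A := by
    intro w hw
    exact hS w.1 w.2 hw
  intro h0
  have h1 := Subgroup.index_dvd_of_le hle
  have h2 : (S.subgroupOf A).index = 0 := h0
  rw [h2] at h1
  exact hK (Nat.eq_zero_of_zero_dvd h1)

/-- the symplectic form with `v` -/
def om {F : Type} [Field F] {k : ℕ} (v : (Fin k → F) × (Fin k → F)) :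
    (Fin k → F) × (Fin k → F) →+ F where
  toFun w := v.1 ⬝ᵥ w.2 - w.1 ⬝ᵥ v.2
  map_zero' := by simp
  map_add' w w' := by
    rw [Prod.fst_add, Prod.snd_add, dotProduct_add, add_dotProduct]
    ring

theorem pf_HEI {M : Type} (U : RU M) (hRKA : RKA U) (hRKB : RKB U) (hGRA : GRA U) (hGRD : GRD U)
    (hGRB : GRB U) (hRNV : RNV U) (hHEA : T_HEA) (hISO : T_ISO) (hSPR : T_SPR U) : T_HEI U := by
  classical
  intro F Γ _ _ _ _ _ _ _ k X Y Z hHS hX hY hZ H hH hR
  by_contra hcon
  have hLam : {z | Z z ∈ H}.Finite := Set.not_infinite.1 hcon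
  obtain ⟨hinj, ⟨Q, hQ⟩, hA0⟩ := hHEA hHS
  obtain ⟨A, hAm, hAf⟩ := hA0 H
  set f := U.R (univ : Set F) with hf
  let V := (Fin k → F) × (Fin k → F)
  let q : V × F → Γ := fun q => X q.1.1 * Y q.1.2 * Z q.2
  have hq : DFn U q := by
    refine DFn_gmul (DFn_gmul (DFn_comp hX ?_) (DFn_comp hY ?_)) (DFn_comp hZ DFn_snd)
    · exact DFn_comp (g := fun p : V => p.1) DFn_fst DFn_fst
    · exact DFn_comp (g := fun p : V => p.2) DFn_snd DFn_fst
  have hFk : U.R (univ : Set (Fin k → F)) = k * f := (hRNV k k).1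
  have hV : U.R (univ : Set V) = k * f + k * f := by
    rw [← univ_prod_univ, hRKB.prod Ful.full Ful.full univ_nonempty univ_nonempty, hFk]
  have hVF : U.R (univ : Set (V × F)) = k * f + k * f + f := by
    rw [← univ_prod_univ, hRKB.prod Ful.full Ful.full univ_nonempty univ_nonempty, hV]
  have hQD : U.D (Q : Set Γ) := by
    rw [hQ, ← image_univ]
    exact DFn_image hq Ful.full
  have hQR : U.R (Q : Set Γ) = k * f + k * f + f := by
    rw [hQ, ← image_univ, ← hVF]
    exact hRKB.inj Ful.full hq univ_nonempty (hinj.injOn)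
  have hB := hGRB (⊤ : Subgroup Γ) H Q (by rw [Subgroup.coe_top]; exact Ful.full) hH hQD le_top
    le_top
  rw [Subgroup.coe_top, hQR] at hB
  have hbig : k * f < U.R ((H ⊓ Q : Subgroup Γ) : Set Γ) := by
    rw [add_mul, one_mul] at hR
    omega
  -- the pairs
  let Z3 : Set (V × F) := {p | q p ∈ (H : Set Γ)}
  have hZ3 : U.D Z3 := DFn_preim hq hH
  have hZ30 : ((0 : V), (0 : F)) ∈ Z3 := by
    have e1 : X 0 = 1 := by
      have := hHS.hX 0 0
      rw [add_zero] at this
      exact (mul_eq_left.1 this.symm)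
    have e2 : Y 0 = 1 := by
      have := hHS.hY 0 0
      rw [add_zero] at this
      exact (mul_eq_left.1 this.symm)
    have e3 : Z 0 = 1 := by
      have := hHS.hZ 0 0
      rw [add_zero] at this
      exact (mul_eq_left.1 this.symm)
    show X 0 * Y 0 * Z 0 ∈ H
    rw [e1, e2, e3, mul_one, mul_one]
    exact H.one_mem
  have hZ3R : U.R Z3 = U.R ((H ⊓ Q : Subgroup Γ) : Set Γ) := by
    rw [← hRKB.inj hZ3 hq ⟨_, hZ30⟩ hinj.injOn]
    congr 1
    ext g
    constructor
    · rintro ⟨p, hp, rfl⟩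
      refine ⟨hp, ?_⟩
      show q p ∈ (Q : Set Γ)
      rw [hQ]
      exact ⟨p, rfl⟩
    · rintro ⟨h1, h2⟩
      have h3 : g ∈ (Q : Set Γ) := h2
      rw [hQ] at h3
      obtain ⟨p, rfl⟩ := h3
      exact ⟨p, h1, rfl⟩
  have hAe : {u : V | ∃ z, (u, z) ∈ Z3} = (A : Set V) := by
    ext u
    exact (hAm u).symm
  have hAD : U.D (A : Set V) := by
    rw [← hAe]
    exact D_ex hZ3
  have hAR : U.R Z3 ≤ U.R (A : Set V) := by
    have := hRKB.sec_le (n := 0) hZ3 ⟨_, hZ30⟩ (fun u hu => ?_)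
    · rwa [hAe, add_zero] at this
    · obtain ⟨z0, hz0⟩ := hu
      have hfin : {z | (u, z) ∈ Z3}.Finite := by
        refine (hLam.image fun z => z + z0).subset fun z hz => ?_
        refine ⟨z - z0, ?_, sub_add_cancel z z0⟩
        show Z (z - z0) ∈ H
        have e : Z (z - z0) = (X u.1 * Y u.2 * Z z0)⁻¹ * (X u.1 * Y u.2 * Z z) := by
          have h1 := hHS.hZ z0 (z - z0)
          rw [add_sub_cancel] at h1
          rw [h1]
          group
        rw [e]
        exact H.mul_mem (H.inv_mem hz0) hz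
      exact ((hRKA.fin (D_finite hfin) ⟨z0, hz0⟩).2 hfin).le
  -- the form
  have hom : ∀ v : V, DFn U (fun w : V => om v w) := fun v =>
    DFn_sub (DFn_dot (DFn_const v.1) DFn_snd) (DFn_dot DFn_fst (DFn_const v.2))
  have hDG : DG U (Multiplicative V) := dgMult (K := F)
  obtain ⟨J, hJ⟩ := hGRD (Γ := Multiplicative V) (I := {v : V // v ∈ A})
    (fun v => AddSubgroup.toSubgroup (om v.1).ker) (fun v => by
      have h := D_eqf (hom v.1) (DFn_const (U := U) (α := V) (0 : F))
      exact h)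
  let J' := {j : {v : V // v ∈ A} // j ∈ J}
  let φ : V →+ (J' → F) :=
    { toFun := fun w j => om j.1.1 w
      map_zero' := by funext j; exact map_zero _
      map_add' := fun w w' => by funext j; exact map_add _ _ _ }
  let S : AddSubgroup V := A ⊓ φ.ker
  have hSm : ∀ w, w ∈ S ↔ w ∈ A ∧ ∀ j : J', om j.1.1 w = 0 := by
    intro w
    constructor
    · rintro ⟨h1, h2⟩
      exact ⟨h1, fun j => congrFun h2 j⟩
    · rintro ⟨h1, h2⟩
      exact ⟨h1, funext h2⟩
  have hSD : U.D (S : Set V) := by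
    have e : (S : Set V) = {w | w ∈ A ∧ ∀ j : J', om j.1.1 w = 0} := by
      ext w
      exact hSm w
    rw [e]
    exact D_and hAD (D_forall_fin fun j => D_eqf (hom j.1.1) (DFn_const _))
  have hfinφ : (φ '' (A : Set V)).Finite := by
    refine (Set.Finite.pi' (t := fun _ : J' => {z | Z z ∈ H}) fun _ => hLam).subset ?_
    rintro _ ⟨w, hw, rfl⟩ j
    exact hAf j.1.1 j.1.2 w hw
  have hrel : (AddSubgroup.toSubgroup S).relIndex (AddSubgroup.toSubgroup A) ≠ 0 := by
    refine relIndex_ne _ _ (AddMonoidHom.toMultiplicative φ) hfinφ fun w hw hw' => ?_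
    exact ⟨hw, hw'⟩
  have hSR : U.R (A : Set V) ≤ U.R (S : Set V) := by
    have h := (@hGRA (Multiplicative V) _ _ hDG (AddSubgroup.toSubgroup A)
      (AddSubgroup.toSubgroup S) hAD hSD (fun w hw => hw.1)).1 hrel
    exact h
  -- isotropic
  obtain ⟨W, hW, hWk⟩ := hISO (S : Set V) (fun u hu w hw => by
    have hu' := (hSm u).1 hu
    have hw' := (hSm w).1 hw
    have h1 := hJ ⟨u, hu'.1⟩
    have h2 : Multiplicative.ofAdd w ∈ ⨅ j ∈ J, AddSubgroup.toSubgroup (om j.1).ker := by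
      rw [Subgroup.mem_iInf]
      intro j
      rw [Subgroup.mem_iInf]
      intro hj
      exact hw'.2 ⟨j, hj⟩
    exact h1 h2)
  obtain ⟨hWD, hWR⟩ := hSPR W
  have h1 := hRKA.mono hSD hWD ⟨0, S.zero_mem⟩ hW
  have h2 : Module.finrank F W * U.R (univ : Set F) ≤ k * f := Nat.mul_le_mul_right _ hWk
  omega

end Pool.Agent.H82.BCT
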