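import Pool.Agent.H77.BD.Targets

set_option autoImplicit false

namespace Pool.Agent.H82.BCT

open Set Matrix Pool.Agent.H77.BC Pool.Agent.H77.BD

theorem DFn_listProd {M : Type} {U : RU M} {α Γ ι : Type} [Cod M α] [Ful U α] [Group Γ]
    [Cod M Γ] [DG U Γ] (L : List ι) (w : ι → α → Γ) (hw : ∀ i, DFn U (w i)) :
    DFn U (fun a => (L.map fun i => w i a).prod) := by
  induction L with
  | nil =>
    simp only [List.map_nil, List.prod_nil]
    exact DFn_const _
  | cons i L ih =>
    simp only [List.map_cons, List.prod_cons]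
    exact DFn_gmul (hw i) ih

theorem tau_list {l : ℕ} {F Γ : Type} [Field F] [Group Γ] (τ : (Fin l → Fˣ) →* Γ)
    (c : Fin l → Fˣ) :
    τ c = ((List.finRange l).map fun i => τ (Pi.mulSingle i (c i))).prod := by
  have h : c = ((List.finRange l).map fun i => Pi.mulSingle i (c i)).prod := by
    rw [← List.ofFn_eq_map, List.prod_ofFn, Finset.univ_prod_mulSingle]
  conv_lhs => rw [h]
  rw [map_list_prod, List.map_map]
  rfl

theorem pf_TRK {M : Type} (U : RU M) (hRKA : RKA U) (hRKB : RKB U) (hRNV : RNV U) : T_TRK U := by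
  classical
  intro l C hC F Γ _ _ _ _ _ _ _ x τ hCD hx
  let w : Fin l → F → Γ := fun i a => (x (ng (sr hC i)) a⁻¹)⁻¹ *
    (x (sr hC i) (1 - a) * x (ng (sr hC i)) 1) * (x (sr hC i) ((1 - a) * a⁻¹))⁻¹
  have hw : ∀ i, DFn U (w i) := by
    intro i
    have hid : DFn U (fun a : F => a) := DFn_id
    refine DFn_gmul (DFn_gmul (DFn_ginv (DFn_comp (hx _) (DFn_inv hid)))
      (DFn_gmul (DFn_comp (hx _) (DFn_sub (DFn_const 1) hid)) (DFn_const _)))
      (DFn_ginv (DFn_comp (hx _) (DFn_mul (DFn_sub (DFn_const 1) hid) (DFn_inv hid))))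
  have hτ : ∀ (i : Fin l) (a : Fˣ), τ (Pi.mulSingle i a) = w i (a : F) := by
    intro i a
    have h := hCD.slt i (sr hC i) (ng (sr hC i)) rfl rfl (1 - (a : F)) 1 a (by ring)
    show _ = (x (ng (sr hC i)) (a : F)⁻¹)⁻¹ *
      (x (sr hC i) (1 - (a : F)) * x (ng (sr hC i)) 1) * (x (sr hC i) ((1 - (a : F)) * (a : F)⁻¹))⁻¹
    rw [h, one_div, div_eq_mul_inv]
    group
  let W : (Fin l → F) → Γ := fun c => ((List.finRange l).map fun i => w i (c i)).prod
  have hW : DFn U W := DFn_listProd (List.finRange l) (fun i (c : Fin l → F) => w i (c i)) fun i =>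
    DFn_comp (hw i) (DFn_apply i)
  let D : Set (Fin l → F) := {c | ∀ i, ¬ c i = 0}
  have hD : U.D D := D_forall_fin fun i => D_not (D_eqf (DFn_apply i) (DFn_const _))
  have hDne : D.Nonempty := ⟨fun _ => 1, fun _ => one_ne_zero⟩
  have e : (range τ : Set Γ) = W '' D := by
    ext g
    constructor
    · rintro ⟨c, rfl⟩
      refine ⟨fun i => (c i : F), fun i => (c i).ne_zero, ?_⟩
      rw [tau_list τ c]
      show ((List.finRange l).map fun i => w i (c i : F)).prod = _
      congr 1
      refine List.map_congr_left fun i _ => ?_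
      exact (hτ i (c i)).symm
    · rintro ⟨c, hc, rfl⟩
      refine ⟨fun i => Units.mk0 (c i) (hc i), ?_⟩
      rw [tau_list τ]
      show _ = ((List.finRange l).map fun i => w i (c i)).prod
      congr 1
      refine List.map_congr_left fun i _ => ?_
      exact hτ i _
  rw [e]
  refine ⟨DFn_image hW hD, ?_⟩
  have h1 := hRKB.fib_ge (n := 0) hD hW hDne (fun b _ => Nat.zero_le _)
  have h2 := hRKA.mono (U := U) hD Ful.full hDne (subset_univ D)
  have h3 := (hRNV (K := F) l l).1
  omega

end Pool.Agent.H82.BCT
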