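import Pool.Agent.H77.BD.Targets

set_option autoImplicit false

namespace Pool.Agent.H82.BCT

open Set Matrix Pool.Agent.H77.BC Pool.Agent.H77.BD

section

variable {l : ℕ} {C : Matrix (Fin l) (Fin l) ℤ} {F Γ : Type} [Field F] [Group Γ]
  {x : Root C → F → Γ} {τ : (Fin l → Fˣ) →* Γ}

theorem x_zero (h : CD x τ) (β : Root C) : x β 0 = 1 := by
  have := h.add β 0 0
  rw [add_zero] at this
  exact mul_eq_left.1 this.symm

theorem x_neg (h : CD x τ) (β : Root C) (s : F) : x β (-s) = (x β s)⁻¹ := by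
  have := h.add β s (-s)
  rw [add_neg_cancel, x_zero h] at this
  exact (inv_eq_of_mul_eq_one_right this.symm).symm

theorem conj_mem (hC : Cartan C) (h : CD x τ) (ht : (Fin l → ℤ) →+ ℤ) (Ψ : Finset (Root C))
    (hpos : ∀ β ∈ Ψ, 0 < ht β.1)
    (hcl : ∀ β ∈ Ψ, ∀ γ ∈ Ψ, ∀ δ : Root C, δ.1 = β.1 + γ.1 → δ ∈ Ψ) (β : Root C) (hβ : β ∈ Ψ)
    (Ψ' : Finset (Root C)) (hΨ' : ∀ γ, γ ∈ Ψ' ↔ γ ≠ β ∧ γ ∈ Ψ) (s : F) :
    ∀ u ∈ Ug x (fun γ => γ ∈ Ψ'), x β s * u * (x β s)⁻¹ ∈ Ug x (fun γ => γ ∈ Ψ') := by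
  intro u hu
  induction hu using Subgroup.closure_induction with
  | mem g hg =>
    obtain ⟨γ, t, hγ, rfl⟩ := hg
    have hγ' := (hΨ' γ).1 hγ
    have hgen : ∀ δ : Root C, δ ∈ Ψ' → ∀ r : F, x δ r ∈ Ug x (fun γ => γ ∈ Ψ') := fun δ hδ r =>
      Subgroup.subset_closure ⟨δ, r, hδ, rfl⟩
    rcases le_or_gt 0 (ip C β.1 γ.1) with h0 | h0
    · rw [h.cmm β γ h0, mul_assoc, mul_inv_cancel, mul_one]
      exact hgen γ hγ t
    · have h1 := neg_two_le_ip hC β γ
      have h2 : ip C β.1 γ.1 = -1 ∨ ip C β.1 γ.1 = -2 := by omega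
      rcases h2 with h2 | h2
      · have h3 := h.com β γ (ad hC β γ h2) rfl s t
        have hne : ad hC β γ h2 ≠ β := by
          intro e
          have e1 : β.1 + γ.1 = β.1 := congrArg Subtype.val e
          have e2 : γ.1 = 0 := by
            have e3 : γ.1 = β.1 + γ.1 - β.1 := (add_sub_cancel_left _ _).symm
            rw [e3, e1, sub_self]
          exact root_ne_zero γ e2
        have h4 : x β s * x γ t * (x β s)⁻¹ =
            x (ad hC β γ h2) ((eps C β.1 γ.1 : F) * s * t) * x γ t := by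
          rw [h3]
          group
        rw [h4]
        exact Subgroup.mul_mem _ (hgen _ ((hΨ' _).2 ⟨hne, hcl β hβ γ hγ'.2 _ rfl⟩) _)
          (hgen γ hγ t)
      · exfalso
        have h3 := ip_eq_neg_two hC β γ h2
        have h4 := hpos γ hγ'.2
        have h5 := hpos β hβ
        rw [h3, map_neg] at h4
        omega
  | one =>
    rw [mul_one, mul_inv_cancel]
    exact Subgroup.one_mem _
  | mul a b _ _ iha ihb =>
    have e : x β s * (a * b) * (x β s)⁻¹ = (x β s * a * (x β s)⁻¹) * (x β s * b * (x β s)⁻¹) := by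
      group
    rw [e]
    exact Subgroup.mul_mem _ iha ihb
  | inv a _ iha =>
    have e : x β s * a⁻¹ * (x β s)⁻¹ = (x β s * a * (x β s)⁻¹)⁻¹ := by group
    rw [e]
    exact Subgroup.inv_mem _ iha

end

theorem pf_UPS {M : Type} (U : RU M) (hRKA : RKA U) (hRKB : RKB U) : T_UPS U := by
  classical
  intro l C hC F Γ _ _ _ _ _ _ x τ hCD hx ht Ψ
  have key : ∀ n : ℕ, ∀ Ψ : Finset (Root C), Ψ.card = n → (∀ β ∈ Ψ, 0 < ht β.1) →
      (∀ β ∈ Ψ, ∀ γ ∈ Ψ, ∀ δ : Root C, δ.1 = β.1 + γ.1 → δ ∈ Ψ) →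
      U.D (Ug x (fun β => β ∈ Ψ) : Set Γ) ∧
      U.R (Ug x (fun β => β ∈ Ψ) : Set Γ) ≤ Ψ.card * U.R (univ : Set F) := by
    intro n
    induction n with
    | zero =>
      intro Ψ hn _ _
      rw [Finset.card_eq_zero] at hn
      subst hn
      have e : (Ug x (fun β => β ∈ (∅ : Finset (Root C))) : Set Γ) = {1} := by
        have e1 : {g : Γ | ∃ (β : Root C) (t : F), β ∈ (∅ : Finset (Root C)) ∧ g = x β t} = ∅ := by
          ext g
          simp
        unfold Ug
        rw [e1, Subgroup.closure_empty, Subgroup.coe_bot]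
      rw [e]
      refine ⟨D_singleton _, ?_⟩
      have := (hRKA.fin (U := U) (D_singleton (U := U) (1 : Γ)) (singleton_nonempty _)).2
        (finite_singleton _)
      rw [this]
      exact Nat.zero_le _
    | succ n ih =>
      intro Ψ hn hpos hcl
      have hne : Ψ.Nonempty := Finset.card_pos.1 (by omega)
      obtain ⟨β, hβ, hmin⟩ := Finset.exists_min_image Ψ (fun β => ht β.1) hne
      have hΨ' : ∀ γ, γ ∈ Ψ.erase β ↔ γ ≠ β ∧ γ ∈ Ψ := fun γ => Finset.mem_erase
      have hc := Finset.card_erase_of_mem hβ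
      obtain ⟨hD, hR⟩ := ih (Ψ.erase β) (by omega) (fun γ hγ => hpos γ ((hΨ' γ).1 hγ).2) (by
        intro γ hγ δ hδ ε he
        rw [hΨ'] at hγ hδ ⊢
        refine ⟨?_, hcl γ hγ.2 δ hδ.2 ε he⟩
        rintro rfl
        have h1 := hmin γ hγ.2
        have h2 := hpos δ hδ.2
        rw [he, map_add] at h1
        omega)
      have hconj := conj_mem hC hCD ht Ψ hpos hcl β hβ (Ψ.erase β) hΨ'
      have hle : Ug x (fun γ => γ ∈ Ψ.erase β) ≤ Ug x (fun γ => γ ∈ Ψ) := by
        refine Subgroup.closure_mono ?_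
        rintro g ⟨γ, t, hγ, rfl⟩
        exact ⟨γ, t, ((hΨ' γ).1 hγ).2, rfl⟩
      have hm : DFn U (fun p : F × Γ => x β p.1 * p.2) :=
        DFn_gmul (DFn_comp (hx β) DFn_fst) DFn_snd
      have e : (Ug x (fun γ => γ ∈ Ψ) : Set Γ) = (fun p : F × Γ => x β p.1 * p.2) ''
          (univ ×ˢ (Ug x (fun γ => γ ∈ Ψ.erase β) : Set Γ)) := by
        ext g
        constructor
        · intro hg
          change g ∈ Ug x (fun γ => γ ∈ Ψ) at hg
          induction hg using Subgroup.closure_induction with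
          | mem g hg =>
            obtain ⟨γ, t, hγ, rfl⟩ := hg
            by_cases hγβ : γ = β
            · rw [hγβ]
              exact ⟨(t, 1), ⟨mem_univ _, Subgroup.one_mem _⟩, mul_one _⟩
            · refine ⟨(0, x γ t), ⟨mem_univ _, ?_⟩, ?_⟩
              · exact Subgroup.subset_closure ⟨γ, t, (hΨ' γ).2 ⟨hγβ, hγ⟩, rfl⟩
              · show x β 0 * x γ t = x γ t
                rw [x_zero hCD, one_mul]
          | one =>
            refine ⟨(0, 1), ⟨mem_univ _, Subgroup.one_mem _⟩, ?_⟩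
            show x β 0 * 1 = 1
            rw [x_zero hCD, one_mul]
          | mul a b ha hb iha ihb =>
            obtain ⟨⟨s, u⟩, ⟨-, hu⟩, rfl⟩ := iha
            obtain ⟨⟨s', u'⟩, ⟨-, hu'⟩, rfl⟩ := ihb
            refine ⟨(s + s', (x β (-s') * u * (x β (-s'))⁻¹) * u'), ⟨mem_univ _,
              Subgroup.mul_mem _ (hconj _ u hu) hu'⟩, ?_⟩
            show x β (s + s') * ((x β (-s') * u * (x β (-s'))⁻¹) * u') =
              x β s * u * (x β s' * u')
            rw [hCD.add, x_neg hCD]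
            group
          | inv a ha iha =>
            obtain ⟨⟨s, u⟩, ⟨-, hu⟩, rfl⟩ := iha
            refine ⟨(-s, x β s * u⁻¹ * (x β s)⁻¹), ⟨mem_univ _,
              hconj _ _ (Subgroup.inv_mem _ hu)⟩, ?_⟩
            show x β (-s) * (x β s * u⁻¹ * (x β s)⁻¹) = (x β s * u)⁻¹
            rw [x_neg hCD]
            group
        · rintro ⟨⟨s, u⟩, ⟨-, hu⟩, rfl⟩
          exact Subgroup.mul_mem _ (Subgroup.subset_closure ⟨β, s, hβ, rfl⟩) (hle hu)
      have hX : U.D (univ ×ˢ (Ug x (fun γ => γ ∈ Ψ.erase β) : Set Γ) : Set (F × Γ)) :=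
        D_prod Ful.full hD
      have hne1 : (Ug x (fun γ => γ ∈ Ψ.erase β) : Set Γ).Nonempty := ⟨1, Subgroup.one_mem _⟩
      rw [e]
      refine ⟨DFn_image hm hX, ?_⟩
      have h1 := hRKB.fib_ge (n := 0) hX hm (univ_nonempty.prod hne1) (fun b _ => Nat.zero_le _)
      have h2 := hRKB.prod (U := U) (X := (univ : Set F)) Ful.full hD univ_nonempty hne1
      rw [h2] at h1
      have h3 : Ψ.card = (Ψ.erase β).card + 1 := by omega
      rw [h3, add_mul, one_mul]
      omega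
  exact fun hpos hcl => key Ψ.card Ψ rfl hpos hcl

end Pool.Agent.H82.BCT
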